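import Pool.Agent.H.MP_7c0f46_gt.Defs

set_option autoImplicit false

namespace Pool.Agent.H.MP_7c0f46_gt

open Filter Set MeasureTheory Topology
open Cardinal hiding univ

theorem Hurewicz.menger {X : Type} [TopologicalSpace X] (h : Hurewicz X) : Menger X :=
  fun 𝒰 hU => let ⟨F, h1, h2⟩ := h 𝒰 hU; ⟨F, h1, fun x => (h2 x).exists⟩

theorem hur {X : Type} [TopologicalSpace X] [Nonempty X] (hX : #X < bnum)
    (hL : ∀ 𝒰 : Set (Set X), (∀ U ∈ 𝒰, IsOpen U) → ⋃₀ 𝒰 = univ →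
      ∃ T ⊆ 𝒰, T.Countable ∧ ⋃₀ T = univ) : Hurewicz X := by
  intro 𝒰 hU
  have : ∀ n, ∃ u : ℕ → Set X, (∀ k, u k ∈ 𝒰 n) ∧ ∀ x, ∃ k, x ∈ u k := by
    intro n
    obtain ⟨T, h1, h2, h3⟩ := hL _ (hU n).1 (hU n).2
    have hne : T.Nonempty := by
      obtain ⟨U, hU, -⟩ : Classical.arbitrary X ∈ ⋃₀ T := h3 ▸ mem_univ _
      exact ⟨U, hU⟩
    obtain ⟨u, rfl⟩ := h2.exists_eq_range hne
    refine ⟨u, fun k => h1 ⟨k, rfl⟩, fun x => ?_⟩
    obtain ⟨_, ⟨k, rfl⟩, h⟩ : x ∈ ⋃₀ range u := h3 ▸ mem_univ _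
    exact ⟨k, h⟩
  choose u u1 f hf using this
  obtain ⟨g, hg⟩ : ∃ g : ℕ → ℕ, ∀ f' ∈ range fun x n => f n x, ∀ᶠ n in atTop, f' n ≤ g n := by
    by_contra h
    exact absurd ((csInf_le' ⟨_, rfl, h⟩ : bnum ≤ _).trans mk_range_le) (not_le.2 hX)
  refine ⟨fun n => u n '' Iic (g n), fun n => ⟨(finite_Iic _).image _, ?_⟩, fun x => ?_⟩
  · rintro _ ⟨k, -, rfl⟩; exact u1 n k
  · filter_upwards [hg _ ⟨x, rfl⟩] with n hn
    exact ⟨_, ⟨_, hn, rfl⟩, hf n x⟩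

theorem split {S : Set ℝ} (hS : Sierpinski S) : ∃ A B : Set ℝ, #A = ℵ₁ ∧ #B ≤ ℵ₁ ∧ Disjoint A B ∧
    ∀ U, IsOpen U → B ⊆ U → (A \ U).Countable := by
  obtain ⟨k, hk⟩ : ∃ k : ℕ, ¬ (S ∩ Icc (-k : ℝ) k).Countable := by
    by_contra h
    push Not at h
    refine hS.1 ((countable_iUnion h).mono fun x hx => ?_)
    obtain ⟨k, hk⟩ := exists_nat_ge |x|
    exact mem_iUnion.2 ⟨k, hx, abs_le.1 hk⟩
  let ι := (ℵ₁ : Cardinal.{0}).ord.ToType
  have hι : #ι = ℵ₁ := mk_ord_toType _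
  have h2 : #(ι × ι) = ℵ₁ := by simp [hι]
  obtain ⟨x⟩ : Nonempty (ι × ι ↪ ↥(S ∩ Icc (-k : ℝ) k)) := by
    rw [← Cardinal.le_def, h2]
    exact not_lt.1 fun h => hk ((countable_iff_lt_aleph_one _).2 h)
  let y : ι × ι → ℝ := fun p => (x p).1
  have hy : Function.Injective y := Subtype.val_injective.comp x.injective
  let T : ι → Set ℝ := fun a => y '' {p | a ≤ p.1}
  have up : ∀ P : Set ι, P.Countable → ∃ a, ∀ b ∈ P, b < a := by
    intro P hP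
    by_contra h
    push Not at h
    have c : (⋃ b ∈ P, Iic b).Countable := hP.biUnion fun a _ => by
      rw [← Iio_insert]
      exact ((countable_iff_lt_aleph_one _).2 (mk_Iio_toType_ord_lt a)).insert a
    have := (countable_iff_lt_aleph_one _).1 (c.mono fun a _ => by
      obtain ⟨b, h1, h2⟩ := h a
      exact mem_biUnion h1 h2 : (univ : Set ι).Countable)
    rw [mk_univ, hι] at this
    exact lt_irrefl _ this
  haveI : Nonempty ι := ⟨(up ∅ countable_empty).choose⟩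
  have anti : ∀ a b, a ≤ b → T b ⊆ T a := fun a b h => image_mono fun p hp => h.trans hp
  obtain ⟨a, ha⟩ : ∃ a, ∀ b, volume (T a) ≤ volume (T b) := by
    obtain ⟨u, -, h1, h2⟩ := exists_seq_tendsto_sInf (range_nonempty fun a => volume (T a))
      (OrderBot.bddBelow _)
    choose v hv using h2
    obtain ⟨a, ha⟩ := up (range v) (countable_range v)
    refine ⟨a, fun b => (ge_of_tendsto' h1 fun n => ?_).trans (sInf_le ⟨b, rfl⟩)⟩
    rw [← hv n]; exact measure_mono (anti _ _ (ha _ ⟨n, rfl⟩).le)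
  obtain ⟨b, hb⟩ := up {a} (countable_singleton a)
  have hab := hb a rfl
  refine ⟨range fun c => y (a, c), T b, ?_, mk_image_le.trans ((mk_set_le _).trans h2.le), ?_,
    fun U hU hB => ?_⟩
  · rw [mk_range_eq _ fun c d e => congrArg Prod.snd (hy e), hι]
  · rw [disjoint_left]
    rintro _ ⟨c, rfl⟩ ⟨p, h1, h2⟩
    rw [hy h2] at h1
    exact absurd hab (not_lt.2 h1)
  · have fin : volume (T b) ≠ ⊤ := by
      refine ne_top_of_le_ne_top (measure_Icc_lt_top (a := (-k : ℝ)) (b := k)).ne (measure_mono ?_)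
      rintro _ ⟨p, -, rfl⟩; exact (x p).2.2
    have h3 := measure_inter_add_diff (μ := volume) (T a) hU.measurableSet
    have h4 : volume (T b) + volume (T a \ U) ≤ volume (T b) + 0 := by
      rw [add_zero]
      refine le_trans ?_ (h3.le.trans (ha b))
      exact add_le_add_left (measure_mono (subset_inter (anti _ _ hab.le) hB)) _
    have h5 := nonpos_iff_eq_zero.1 ((ENNReal.add_le_add_iff_left fin).1 h4)
    refine (hS.2 _ h5).mono ?_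
    rintro _ ⟨⟨c, rfl⟩, h⟩
    exact ⟨(x _).2.1, ⟨_, le_refl a, rfl⟩, h⟩

structure M (A B : Set ℝ) where
  v : ℝ
  h : v ∈ A ∪ B

instance (A B : Set ℝ) : TopologicalSpace (M A B) where
  IsOpen U := ∀ y ∈ U, y.v ∈ B → ∃ V : Set ℝ, IsOpen V ∧ y.v ∈ V ∧ ∀ z : M A B, z.v ∈ V → z ∈ U
  isOpen_univ := fun _ _ _ => ⟨univ, isOpen_univ, trivial, fun _ _ => trivial⟩
  isOpen_inter := fun U U' h h' y hy hB => by
    obtain ⟨V, a1, a2, a3⟩ := h y hy.1 hB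
    obtain ⟨V', b1, b2, b3⟩ := h' y hy.2 hB
    exact ⟨V ∩ V', a1.inter b1, ⟨a2, b2⟩, fun z hz => ⟨a3 z hz.1, b3 z hz.2⟩⟩
  isOpen_sUnion := fun s hs y ⟨U, h1, h2⟩ hB => by
    obtain ⟨V, a1, a2, a3⟩ := hs U h1 y h2 hB
    exact ⟨V, a1, a2, fun z hz => ⟨U, h1, a3 z hz⟩⟩

theorem M.inj {A B : Set ℝ} : Function.Injective (M.v : M A B → ℝ) := by
  rintro ⟨a, _⟩ ⟨b, _⟩ rfl; rfl

theorem M.lind {A B : Set ℝ} (h : ∀ U, IsOpen U → B ⊆ U → (A \ U).Countable)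
    (𝒰 : Set (Set (M A B))) (h1 : ∀ U ∈ 𝒰, IsOpen U) (h2 : ⋃₀ 𝒰 = univ) :
    ∃ T ⊆ 𝒰, T.Countable ∧ ⋃₀ T = univ := by
  have c : ∀ y : M A B, ∃ U ∈ 𝒰, y ∈ U := fun y => (h2 ▸ mem_univ y : y ∈ ⋃₀ 𝒰)
  choose u u1 u2 using c
  choose V v1 v2 v3 using fun b : B => h1 _ (u1 ⟨b, Or.inr b.2⟩) _ (u2 _) b.2
  obtain ⟨P, p1, p2⟩ := TopologicalSpace.isOpen_iUnion_countable V v1
  have h3 := h _ (isOpen_iUnion v1) fun b hb => mem_iUnion.2 ⟨⟨b, hb⟩, v2 _⟩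
  refine ⟨u '' ((fun b : B => ⟨b, Or.inr b.2⟩) '' P ∪ M.v ⁻¹' (A \ ⋃ b, V b)), ?_,
    ((p1.image _).union (h3.preimage M.inj)).image _, eq_univ_of_forall fun y => ?_⟩
  · rintro _ ⟨y, -, rfl⟩; exact u1 y
  · by_cases c : y.v ∈ ⋃ b, V b
    · rw [← p2] at c
      obtain ⟨b, hb, hy⟩ := mem_iUnion₂.1 c
      exact ⟨_, ⟨_, Or.inl ⟨b, hb, rfl⟩, rfl⟩, v3 b y hy⟩
    · refine ⟨_, ⟨y, Or.inr ⟨y.h.resolve_right fun hb => c ?_, c⟩, rfl⟩, u2 y⟩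
      exact mem_iUnion.2 ⟨⟨_, hb⟩, v2 _⟩

theorem M.notM {A B : Set ℝ} (hA : ¬ A.Countable) (hd : Disjoint A B) :
    ¬ Menger (A × M A B) := by
  intro h
  have hc : Continuous (M.v : M A B → ℝ) := ⟨fun V hV y hy _ => ⟨V, hV, hy, fun _ h => h⟩⟩
  let W : A → Set (A × M A B) := fun a => {p | p.1.1 ≠ p.2.v} ∪ univ ×ˢ {y : M A B | y.v = a.1}
  obtain ⟨F, h1, h2⟩ := h (fun _ => range W) fun _ => ⟨by
    rintro _ ⟨a, rfl⟩
    refine (isOpen_ne_fun (by fun_prop) (hc.comp continuous_snd)).union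
      (isOpen_univ.prod fun y hy hB => absurd hB ?_)
    rw [show y.v = a.1 from hy]; exact disjoint_left.1 hd a.2, eq_univ_of_forall fun p => by
      refine ⟨_, ⟨p.1, rfl⟩, ?_⟩
      by_cases c : p.1.1 = p.2.v
      · exact Or.inr ⟨trivial, c.symm⟩
      · exact Or.inl c⟩
  have key : ∀ a b : A, (a, (⟨a, Or.inl a.2⟩ : M A B)) ∈ W b → a = b := by
    rintro a b (h | h)
    · exact absurd rfl h
    · exact Subtype.ext h.2
  have hW : Function.Injective W := fun a b e => key a b (e ▸ Or.inr ⟨trivial, rfl⟩)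
  refine hA (countable_coe_iff.1 (countable_univ_iff.1 ?_))
  refine (countable_iUnion fun n => (h1 n).1.countable.preimage hW).mono fun a _ => ?_
  obtain ⟨n, U, a1, a2⟩ := h2 (a, ⟨a, Or.inl a.2⟩)
  obtain ⟨b, rfl⟩ := (h1 n).2 a1
  exact mem_iUnion.2 ⟨n, key a b a2 ▸ a1⟩

end Pool.Agent.H.MP_7c0f46_gt
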