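import Mathlib

set_option autoImplicit false

namespace Pool.Agent.H.MP_7c0f46_gt

open Filter Cardinal

/-- the bounding number `𝔟` -/
noncomputable def bnum : Cardinal.{0} :=
  sInf {κ | ∃ F : Set (ℕ → ℕ), #F = κ ∧ ¬ ∃ g : ℕ → ℕ, ∀ f ∈ F, ∀ᶠ n in atTop, f n ≤ g n}

def Menger (X : Type) [TopologicalSpace X] : Prop :=
  ∀ 𝒰 : ℕ → Set (Set X), (∀ n, (∀ U ∈ 𝒰 n, IsOpen U) ∧ ⋃₀ 𝒰 n = Set.univ) →
    ∃ ℱ : ℕ → Set (Set X), (∀ n, (ℱ n).Finite ∧ ℱ n ⊆ 𝒰 n) ∧ ∀ x, ∃ n, x ∈ ⋃₀ ℱ n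

def Hurewicz (X : Type) [TopologicalSpace X] : Prop :=
  ∀ 𝒰 : ℕ → Set (Set X), (∀ n, (∀ U ∈ 𝒰 n, IsOpen U) ∧ ⋃₀ 𝒰 n = Set.univ) →
    ∃ ℱ : ℕ → Set (Set X), (∀ n, (ℱ n).Finite ∧ ℱ n ⊆ 𝒰 n) ∧ ∀ x, ∀ᶠ n in atTop, x ∈ ⋃₀ ℱ n

def ProdMenger (X : Type) [TopologicalSpace X] : Prop :=
  ∀ (Y : Type) [TopologicalSpace Y], Menger Y → Menger (X × Y)

def ProdHurewicz (X : Type) [TopologicalSpace X] : Prop :=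
  ∀ (Y : Type) [TopologicalSpace Y], Hurewicz Y → Hurewicz (X × Y)

/-- an uncountable set of reals meeting every Lebesgue null set in a countable set -/
def Sierpinski (S : Set ℝ) : Prop :=
  ¬ S.Countable ∧ ∀ N : Set ℝ, MeasureTheory.volume N = 0 → (S ∩ N).Countable

end Pool.Agent.H.MP_7c0f46_gt
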